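import Mathlib

/-!
# Rational motivic cohomology of fields

Everything is about the rational motivic cohomology `H^i(F, ℚ(n)) = CH^n(Spec F, 2n - i)_ℚ` of
fields `F` (weight `n`, degree `i`).
-/

namespace Pool.Agent.N522.BSV

/-- Rational motivic cohomology of fields, with its restriction and residue maps. -/
structure FieldTheory where
  /-- `H^i(F, ℚ(n))` -/
  H : (F : Type) → [Field F] → (n i : ℤ) → Type
  [grp : ∀ (F : Type) [Field F] (n i : ℤ), AddCommGroup (H F n i)]
  /-- restriction along a homomorphism of fields -/
  res : ∀ {F L : Type} [Field F] [Field L], (F →+* L) → ∀ n i : ℤ, H F n i →+ H L n i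
  /-- the residue map at `t = 0` of the field of rational functions `F(t)` -/
  tame : ∀ (F : Type) [Field F] (n i : ℤ), H (RatFunc F) (n + 1) (i + 1) →+ H F n i

attribute [instance] FieldTheory.grp

/-- Known facts about the rational motivic cohomology of fields.

* `res_injective`: restriction is injective (transfer for algebraic extensions, specialization for
  purely transcendental ones);
* `tame_surjective`: the residue map is surjective (it is split by the product with `t`);
* `countable`: every class comes from a countable (indeed finitely generated) subfield. -/
structure FieldFacts (T : FieldTheory) : Prop where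
  res_injective : ∀ {F L : Type} [Field F] [Field L] (f : F →+* L) (n i : ℤ),
    Function.Injective (T.res f n i)
  tame_surjective : ∀ (F : Type) [Field F] (n i : ℤ), Function.Surjective (T.tame F n i)
  countable : ∀ (F : Type) [Field F] (n i : ℤ) (x : T.H F n i),
    ∃ K : Subfield F, Countable K ∧ ∃ y : T.H K n i, T.res K.subtype n i y = x

/-- `H^i(F, ℚ(n)) = 0` -/
def Vanishes (T : FieldTheory) (F : Type) [Field F] (n i : ℤ) : Prop := ∀ x : T.H F n i, x = 0

end Pool.Agent.N522.BSV
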