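import Pool.Agent.N522.BSV.Defs

/-!
# Reduction to one algebraically closed field and one degree
-/

namespace Pool.Agent.N522.BSV

open Cardinal

/-- a field which is not larger than `Ω` embeds into `Ω` -/
theorem exists_embedding (Ω : Type) [Field Ω] [IsAlgClosed Ω] (p : ℕ) [CharP Ω p]
    (hΩ : ℵ₀ < #Ω) (F : Type) [Field F] [CharP F p] (hF : #F ≤ #Ω) : Nonempty (F →+* Ω) := by
  let R := MvPolynomial Ω F
  let K := FractionRing R
  let A := AlgebraicClosure K
  have hR : #R = #Ω := by
    rw [MvPolynomial.cardinalMk_eq_max]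
    rw [max_eq_left (a := max #F #Ω) (le_trans hΩ.le (le_max_right _ _)), max_eq_right hF]
  have hK : #K = #Ω := by
    rw [← hR]
    exact Cardinal.mk_fractionRing R
  have hA : #A = #Ω := by
    apply le_antisymm
    · refine (Algebra.IsAlgebraic.cardinalMk_le_max K A).trans ?_
      rw [hK, max_eq_left hΩ.le]
    · rw [← hK]
      exact Cardinal.mk_le_of_injective (algebraMap K A).injective
  have hchR : CharP R p := inferInstance
  have hchK : CharP K p := charP_of_injective_ringHom (IsFractionRing.injective R K) p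
  have hchA : CharP A p := charP_of_injective_ringHom (algebraMap K A).injective p
  have hne : Nonempty (A ≃ Ω) := Cardinal.eq.mp hA
  obtain ⟨e⟩ := IsAlgClosed.ringEquiv_of_equiv_of_char_eq (K := A) (L := Ω) p (by rw [hA]; exact hΩ)
    hne
  exact ⟨(e : A →+* Ω).comp ((algebraMap K A).comp ((algebraMap R K).comp MvPolynomial.C))⟩

variable {T : FieldTheory}

theorem vanishes_of_hom (hT : FieldFacts T) {F L : Type} [Field F] [Field L] (f : F →+* L)
    (n i : ℤ) (h : Vanishes T L n i) : Vanishes T F n i := by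
  intro x
  apply hT.res_injective f n i
  rw [h (T.res f n i x), map_zero]

theorem vanishes_of_residue (hT : FieldFacts T) (F : Type) [Field F]
    (n i : ℤ) (h : Vanishes T (RatFunc F) (n + 1) (i + 1)) : Vanishes T F n i := by
  intro x
  obtain ⟨y, rfl⟩ := hT.tame_surjective F n i x
  rw [h y, map_zero]

/-- vanishing for one uncountable algebraically closed field implies vanishing for all fields of
the same characteristic -/
theorem vanishes_all (hT : FieldFacts T) (Ω : Type) [Field Ω] [IsAlgClosed Ω] (p : ℕ)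
    [CharP Ω p] (hΩ : ℵ₀ < #Ω) (n i : ℤ) (h : Vanishes T Ω n i) (F : Type) [Field F] [CharP F p] :
    Vanishes T F n i := by
  intro x
  obtain ⟨K, hK, y, rfl⟩ := hT.countable F n i x
  have : CharP K p := RingHom.charP K.subtype K.subtype.injective p
  obtain ⟨f⟩ := exists_embedding Ω p hΩ K (le_trans (Cardinal.mk_le_aleph0_iff.mpr hK) hΩ.le)
  rw [vanishes_of_hom hT f n i h y, map_zero]

theorem vanishes_down (hT : FieldFacts T) (Ω : Type) [Field Ω] [IsAlgClosed Ω] (p : ℕ)
    [CharP Ω p] (hΩ : ℵ₀ < #Ω) (n i : ℤ) (h : Vanishes T Ω n i) (r : ℕ) :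
    Vanishes T Ω (n - r) (i - r) := by
  induction r with
  | zero => simpa using h
  | succ r ih =>
    have hch : CharP (RatFunc Ω) p :=
      charP_of_injective_ringHom (algebraMap Ω (RatFunc Ω)).injective p
    have h1 : Vanishes T (RatFunc Ω) (n - r) (i - r) := vanishes_all hT Ω p hΩ _ _ ih (RatFunc Ω)
    have h2 : n - (r : ℤ) = (n - ((r + 1 : ℕ) : ℤ)) + 1 := by push_cast; ring
    have h3 : i - (r : ℤ) = (i - ((r + 1 : ℕ) : ℤ)) + 1 := by push_cast; ring
    rw [h2, h3] at h1
    exact vanishes_of_residue hT Ω _ _ h1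

end Pool.Agent.N522.BSV
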