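import Pool.Agent.N522.BSV.Main

/-!
# Rational motivic cohomology of smooth complex varieties
-/

namespace Pool.Agent.N522.BSV

open AlgebraicGeometry CategoryTheory

/-- smooth separated schemes of finite type over `ℂ` -/
def IsSmoothVariety (X : Scheme.{0}) : Prop :=
  ∃ f : X ⟶ Spec (CommRingCat.of ℂ), Smooth f ∧ IsSeparated f ∧ QuasiCompact f

/-- Rational motivic cohomology of fields and of smooth complex varieties. -/
structure SchemeTheory extends FieldTheory where
  /-- `H^i(X, ℚ(n)) = CH^n(X, 2n - i)_ℚ` for a smooth complex variety `X` -/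
  HX : Scheme.{0} → (n i : ℤ) → Type
  [grpX : ∀ (X : Scheme.{0}) (n i : ℤ), AddCommGroup (HX X n i)]

attribute [instance] SchemeTheory.grpX

/-- `H^i(X, ℚ(n)) = CH^n(X, 2n - i)_ℚ = 0` -/
def SchemeVanishes (T : SchemeTheory) (X : Scheme.{0}) (n i : ℤ) : Prop :=
  ∀ x : T.HX X n i, x = 0

/-- Known facts.

* `low`: `ℚ(n)` is `0` for `n < 0`, `ℚ` in degree `0` for `n = 0`, and `𝔾_m ⊗ ℚ` in degree `1` for
  `n = 1`;
* `point`: the variety `Spec ℂ` and the field `ℂ`;
* `coniveau`: the spectral sequence with `E_1^{c,q}` the sum over the points `x` of codimension `c`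
  of `H^{q-c}(κ(x), ℚ(n-c))`, converging to `H^{c+q}(X, ℚ(n))`. -/
structure SchemeFacts (T : SchemeTheory) : Prop where
  fields : FieldFacts T.toFieldTheory
  low : ∀ (F : Type) [Field F] (n i : ℤ), n ≤ 1 → i < 0 → Vanishes T.toFieldTheory F n i
  point : ∀ n i : ℤ, SchemeVanishes T (Spec (CommRingCat.of ℂ)) n i ↔
    Vanishes T.toFieldTheory ℂ n i
  coniveau : ∀ X : Scheme.{0}, IsSmoothVariety X → ∀ n i : ℤ,
    (∀ (x : X) (c : ℕ), ringKrullDim (X.presheaf.stalk x) = c →
      Vanishes T.toFieldTheory (X.residueField x) (n - c) (i - 2 * c)) → SchemeVanishes T X n i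

/-- Q1 for a class of varieties: the groups `CH^n(X, 2n - i)_ℚ` vanish for `i < 0`. -/
def Q1 (T : SchemeTheory) (𝒞 : Scheme.{0} → Prop) : Prop :=
  ∀ X : Scheme.{0}, 𝒞 X → ∀ n i : ℤ, i < 0 → SchemeVanishes T X n i

theorem charZero_residue (X : Scheme.{0}) (hX : IsSmoothVariety X) (x : X) :
    CharP (X.residueField x) 0 := by
  obtain ⟨f, -⟩ := hX
  let g : CommRingCat.of ℂ ⟶ X.residueField x := Spec.preimage (X.fromSpecResidueField x ≫ f)
  have h0 : CharP ℂ 0 := inferInstance
  exact charP_of_injective_ringHom (f := (g.hom : ℂ →+* X.residueField x)) g.hom.injective 0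

theorem key {T : SchemeTheory} (hT : SchemeFacts T) (N : ℤ)
    (h : ∀ n : ℤ, 2 ≤ n → n ≤ N → SchemeVanishes T (Spec (CommRingCat.of ℂ)) n (-1))
    (X : Scheme.{0}) (hX : IsSmoothVariety X) (n i : ℤ) (hi : i < 0) (hN : 2 * n - i ≤ N + 3) :
    SchemeVanishes T X n i := by
  apply hT.coniveau X hX
  intro x c _
  have hch := charZero_residue X hX x
  by_cases hn : n - c ≤ 1
  · exact hT.low _ _ _ hn (by omega)
  · have h1 : Vanishes T.toFieldTheory ℂ (n - i + c - 1) (-1) := by
      rw [← hT.point]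
      exact h _ (by omega) (by omega)
    have h2 := vanishes_down hT.fields ℂ 0 (by
      rw [Cardinal.mk_complex]; exact Cardinal.aleph0_lt_continuum) _ _ h1 (2 * c - i - 1).toNat
    have h3 : ((2 * c - i - 1).toNat : ℤ) = 2 * c - i - 1 := Int.toNat_of_nonneg (by omega)
    rw [h3] at h2
    have h4 : n - i + c - 1 - (2 * c - i - 1) = n - c := by ring
    have h5 : -1 - (2 * (c : ℤ) - i - 1) = i - 2 * c := by ring
    rw [h4, h5] at h2
    exact vanishes_all hT.fields ℂ 0 (by
      rw [Cardinal.mk_complex]; exact Cardinal.aleph0_lt_continuum) _ _ h2 _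

/-- Q1 for a class containing the point implies the vanishing for all fields of characteristic
zero. -/
theorem fields_of_point {T : SchemeTheory} (hT : SchemeFacts T)
    (h : ∀ n : ℤ, 2 ≤ n → SchemeVanishes T (Spec (CommRingCat.of ℂ)) n (-1))
    (F : Type) [Field F] [CharZero F] (n i : ℤ) (hi : i < 0) :
    Vanishes T.toFieldTheory F n i := by
  by_cases hn : n ≤ 1
  · exact hT.low _ _ _ hn hi
  · have h1 : Vanishes T.toFieldTheory ℂ (n - i - 1) (-1) := by
      rw [← hT.point]
      exact h _ (by omega)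
    have h2 := vanishes_down hT.fields ℂ 0 (by
      rw [Cardinal.mk_complex]; exact Cardinal.aleph0_lt_continuum) _ _ h1 (- i - 1).toNat
    have h3 : ((- i - 1).toNat : ℤ) = - i - 1 := Int.toNat_of_nonneg (by omega)
    rw [h3] at h2
    have h4 : n - i - 1 - (- i - 1) = n := by ring
    have h5 : -1 - (- i - 1) = i := by ring
    rw [h4, h5] at h2
    exact vanishes_all hT.fields ℂ 0 (by
      rw [Cardinal.mk_complex]; exact Cardinal.aleph0_lt_continuum) _ _ h2 _

end Pool.Agent.N522.BSV
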