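import Pool.Agent.N522.BSV.Main

/-!
# Integral motivic cohomology and the sheaves `H^i_Zar(ℤ(n))`
-/

namespace Pool.Agent.N522.BSV

open Cardinal

/-- Integral motivic cohomology of fields and the vanishing of the cohomology sheaves of the
motivic complexes. -/
structure SheafTheory extends FieldTheory where
  /-- `H^i(F, ℤ(n))` -/
  HZ : (F : Type) → [Field F] → (n : ℕ) → (i : ℤ) → Type
  [grpZ : ∀ (F : Type) [Field F] (n : ℕ) (i : ℤ), AddCommGroup (HZ F n i)]
  /-- `H^i(F, ℤ(n)) → H^i(F, ℚ(n))` -/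
  toQ : ∀ (F : Type) [Field F] (n : ℕ) (i : ℤ), HZ F n i →+ H F n i
  /-- the sheaf `H^i_Zar(ℤ(n))` on `Sm/k` is zero -/
  SheafZero : (k : Type) → [Field k] → (n : ℕ) → (i : ℤ) → Prop

attribute [instance] SheafTheory.grpZ

/-- `H^i(F, ℤ(n)) = 0` -/
def IntVanishes (T : SheafTheory) (F : Type) [Field F] (n : ℕ) (i : ℤ) : Prop :=
  ∀ x : T.HZ F n i, x = 0

/-- Known facts.

* `torsion_ker`, `torsion_coker`: `H^i(F, ℚ(n)) = H^i(F, ℤ(n)) ⊗ ℚ`;
* `torsionFree`: `H^i(F, ℤ(n))` is torsion-free for `n ≥ 1`, `i ≤ 0` (Beilinson–Lichtenbaum, i.e.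
  Rost–Voevodsky, and Geisser–Levine for `p`-torsion in characteristic `p`);
* `stalks`: over a perfect field, `H^i_Zar(ℤ(n))` is a homotopy invariant sheaf with transfers, so
  it vanishes if and only if it vanishes at all finitely generated field extensions of `k`;
* `perfect`: it is enough to consider perfect fields. -/
structure SheafFacts (T : SheafTheory) : Prop where
  fields : FieldFacts T.toFieldTheory
  torsion_ker : ∀ (F : Type) [Field F] (n : ℕ) (i : ℤ) (x : T.HZ F n i), T.toQ F n i x = 0 →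
    ∃ m : ℕ, 0 < m ∧ m • x = 0
  torsion_coker : ∀ (F : Type) [Field F] (n : ℕ) (i : ℤ) (y : T.H F n i),
    ∃ m : ℕ, 0 < m ∧ ∃ x : T.HZ F n i, T.toQ F n i x = m • y
  divisible : ∀ (F : Type) [Field F] (n i : ℤ) (y : T.H F n i) (m : ℕ), 0 < m → m • y = 0 → y = 0
  torsionFree : ∀ (F : Type) [Field F] (n : ℕ) (i : ℤ), 1 ≤ n → i ≤ 0 →
    ∀ (x : T.HZ F n i) (m : ℕ), 0 < m → m • x = 0 → x = 0
  stalks : ∀ (k : Type) [Field k] [PerfectField k] (n : ℕ) (i : ℤ), T.SheafZero k n i ↔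
    ∀ (F : Type) [Field F] [Algebra k F], Algebra.EssFiniteType k F → IntVanishes T F n i
  perfect : ∀ (k : Type) [Field k] (n : ℕ) (i : ℤ), ∃ (k' : Type) (_ : Field k')
    (_ : Algebra k k'), PerfectField k' ∧ (T.SheafZero k' n i → T.SheafZero k n i)

/-- Q1 for the fields of characteristic `p` (`p` a prime or `0`): `ℤ(n)` is acyclic in degrees
`≤ 0` for `n ≥ 1`. -/
def Q1Char (T : SheafTheory) (p : ℕ) : Prop :=
  ∀ (k : Type) [Field k] [CharP k p] (n : ℕ) (i : ℤ), 1 ≤ n → i ≤ 0 → T.SheafZero k n i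

/-- The part of Q1 for the fields of characteristic `p` which concerns the pairs `(n, i)` with
`n - i = m`. -/
def Q1Diagonal (T : SheafTheory) (p m : ℕ) : Prop :=
  ∀ (k : Type) [Field k] [CharP k p] (n : ℕ) (i : ℤ), 1 ≤ n → i ≤ 0 → (n : ℤ) - i = m →
    T.SheafZero k n i

theorem int_iff {T : SheafTheory} (hT : SheafFacts T) (F : Type) [Field F] (n : ℕ) (i : ℤ)
    (hn : 1 ≤ n) (hi : i ≤ 0) :
    IntVanishes T F n i ↔ Vanishes T.toFieldTheory F n i := by
  constructor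
  · intro h y
    obtain ⟨m, hm, x, hx⟩ := hT.torsion_coker F n i y
    rw [h x, map_zero] at hx
    exact hT.divisible F n i y m hm hx.symm
  · intro h x
    obtain ⟨m, hm, hx⟩ := hT.torsion_ker F n i x (h _)
    exact hT.torsionFree F n i hn hi x m hm hx

theorem diagonal_of {T : SheafTheory} (hT : SheafFacts T) (Ω : Type) [Field Ω] [IsAlgClosed Ω]
    (p : ℕ) [CharP Ω p] (hΩ : ℵ₀ < #Ω) (m : ℕ) (hm : 1 ≤ m) (h : IntVanishes T Ω m 0) :
    Q1Diagonal T p m := by
  intro k _ _ n i hn hi hni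
  obtain ⟨k', _, _, hk', himp⟩ := hT.perfect k n i
  apply himp
  rw [hT.stalks]
  intro F _ _ _
  rw [int_iff hT F n i hn hi]
  have h1 : Vanishes T.toFieldTheory Ω m 0 := (int_iff hT Ω m 0 hm le_rfl).mp h
  have h2 := vanishes_down hT.fields Ω p hΩ _ _ h1 (-i).toNat
  have h3 : ((-i).toNat : ℤ) = -i := Int.toNat_of_nonneg (by omega)
  have h4 : (m : ℤ) - -i = n := by omega
  have h5 : (0 : ℤ) - -i = i := by ring
  rw [h3, h4, h5] at h2
  have hch' : CharP k' p := charP_of_injective_ringHom (algebraMap k k').injective p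
  have hch : CharP F p := charP_of_injective_ringHom (algebraMap k' F).injective p
  exact vanishes_all hT.fields Ω p hΩ _ _ h2 F

theorem of_diagonal {T : SheafTheory} (hT : SheafFacts T) (Ω : Type) [Field Ω] [IsAlgClosed Ω]
    (p : ℕ) [CharP Ω p] (m : ℕ) (hm : 1 ≤ m) (h : Q1Diagonal T p m) :
    IntVanishes T Ω m 0 := by
  have h1 := h Ω m 0 hm le_rfl (by ring)
  rw [hT.stalks] at h1
  exact h1 Ω inferInstance

end Pool.Agent.N522.BSV
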